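import Pool.Agent.MP_187b32_an.Spec.Energy

/-!
Module M4a: definitions and the intermediate statements of the weighted energy estimate.
-/

set_option autoImplicit false

open MeasureTheory Pool.Agent.Boltz Finset

noncomputable section

namespace Pool.Agent.MP_187b32_an

/-- Squared weighted norm in the velocity. -/
def wq (f : SV) : ℝ := ∫ v, (1 + ‖v‖) ^ 4 * f v ^ 2

/-- Sum of the weighted norms of all creation words of length at most `m`. -/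
def WW (m : ℕ) (f : SV) : ℝ := ∑ l ∈ range (m + 1), ∑ w ∈ words l, wq (apW w f)

/-- The symmetric part of the transport form. -/
def NV (m : ℕ) (i : Fin 3) (f g : SV) : ℝ := ∑ w ∈ words m, ip (mulV i (apW w f)) (apW w g)

/-- Velocity estimates used in the transport inequality. -/
structure VStmt : Prop where
  wq_nonneg : ∀ f, 0 ≤ wq f
  wq_zero : wq 0 = 0
  wq_cont : Continuous wq
  wq_le : ∀ Q : CollOp, ∃ C : ℝ, 0 < C ∧ ∀ f, wq f ≤ C * Q.dq f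
  comm : ∀ m, ∃ C : ℝ, 0 < C ∧ ∀ i f g,
    |ip (mulV i f) (RR (m + 1) g) - NV (m + 1) i f g| ≤ C * √(WW m f) * √(WW (m + 1) g)
  nv : ∀ m i f g, |NV m i f g| ≤ √(WW m f) * √(WW m g)
  rr : ∀ m f g, |ip f (RR m g)| ≤ √(WW m f) * √(WW m g)
  mv : ∀ m, ∃ C : ℝ, 0 < C ∧ ∀ i f g, |ip (mulV i f) (RR m g)| ≤ C * √(WW m f) * √(WW m g)
  top : ∀ m, ∃ C : ℝ, 0 < C ∧ ∀ i j l f, |ip (ap l f) (RR m f)| ≤ C * WW m f ∧
    |ip (mulV i (ap l f)) (RR m f)| ≤ C * WW m f ∧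
    |ip (mulV i (mulV j (ap l f))) (RR m f)| ≤ C * WW m f
  low : ∀ m, ∃ C : ℝ, 0 < C ∧ ∀ i j l f g,
    |ip (ap l f) (RR m g)| ≤ C * √(WW (m + 1) f) * √(WW m g) ∧
    |ip (mulV i (ap l f)) (RR m g)| ≤ C * √(WW (m + 1) f) * √(WW m g) ∧
    |ip (mulV i (mulV j (ap l f))) (RR m g)| ≤ C * √(WW (m + 1) f) * √(WW m g)
  split : ∀ m, ∃ C : ℝ, 0 < C ∧ ∀ f, WW m f ≤ C * (ip (PP f) (PP f) + WW m (f - PP f))
  sharp1 : ∀ (ξ : Fin 3 → ℝ) (Y : SV),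
    |∑ i, ξ i * ip (mulV i (PP Y)) (PP Y)| ≤ 9 / 4 * √(∑ i, ξ i ^ 2) * ip (PP Y) (PP Y)
  sharp2 : ∀ (ξ : Fin 3 → ℝ) (X : Fin 3 → SV),
    |∑ p, ∑ i, ξ p * ip (mulV i (PP (X i))) (PP (X p))|
      ≤ 9 / 4 * √(∑ i, ξ i ^ 2) * ∑ i, ip (PP (X i)) (PP (X i))
  cross : ∃ C : ℝ, 0 < C ∧ ∀ i f g, |ip (mulV i f) g - ip (mulV i (PP f)) (PP g)| ≤
    C * (√(ip (PP f) (PP f)) * √(wq (g - PP g)) + √(wq (f - PP f)) * √(ip (PP g) (PP g))
      + √(wq (f - PP f)) * √(wq (g - PP g)))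
  matr : ∀ (κ a : ℝ) (M : Fin 3 → Fin 3 → ℝ),
    (∀ ξ : Fin 3 → ℝ, κ * ∑ i, ξ i ^ 2 ≤ a * ∑ i, ξ i ^ 2 + ∑ p, ∑ i, ξ p * ξ i * M p i) →
    ∀ (m : ℕ) (X : Fin 3 → SV), κ * ∑ i, ip (X i) (RR m (X i)) ≤
      a * ∑ i, ip (X i) (RR m (X i)) + ∑ p, ∑ i, M p i * ip (X i) (RR m (X p))

/-- Hydrodynamic size at level `j`. -/
def zz (j : ℕ) (σ : E3 → ℝ) (G : E3 → SV) (x : E3) : ℝ :=
  σ x ^ (2 * j) * ∑ u ∈ words j, ip (PP (dXw u G x)) (PP (dXw u G x))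

/-- Weighted size of the non-hydrodynamic part. -/
def yw (n : ℕ) (σ : E3 → ℝ) (G : E3 → SV) (x : E3) : ℝ :=
  lev n 1 (σ x) fun u m => ∑ w ∈ words m, wq (apW w (dXw u G x - PP (dXw u G x)))

/-- The part of the time derivative of the energy density that comes from the weights. -/
def et (n : ℕ) (θ : ℝ) (ω σ ωt σt : E3 → ℝ) (G : E3 → SV) (x : E3) : ℝ :=
  ωt x * bb n θ σ G G x + ω x * ∑ j ∈ range (n + 1), ∑ m ∈ range (n + 1 - j),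
    θ ^ (j + m) * (2 * j * σ x ^ (2 * j - 1) * σt x) *
      ∑ u ∈ words j, ip (dXw u G x) (RR m (dXw u G x))

/-- Time derivative of the energy. -/
def EtStmt : Prop :=
  ∀ (n : ℕ) (θ : ℝ) (ω ωt σ σt : ℝ → E3 → ℝ) (g g' : ℝ → E3 → SV), SmD ω ωt → SmD σ σt →
    SmD g g' →
    Continuous (fun s => tint (et n θ (ω s) (σ s) (ωt s) (σt s) (g s))
      + 2 * En n θ (ω s) (σ s) (g' s) (g s)) ∧
    ∀ s, HasDerivAt (fun t => En n θ (ω t) (σ t) (g t) (g t))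
      (tint (et n θ (ω s) (σ s) (ωt s) (σt s) (g s)) + 2 * En n θ (ω s) (σ s) (g' s) (g s)) s

/-- Weighted interpolation between the hydrodynamic levels. -/
def InterpStmt : Prop :=
  ∀ (K : ℝ) (n : ℕ) (ε : ℝ), 0 < ε → ∃ C : ℝ, 0 < C ∧
    ∀ (ω σ μ : E3 → ℝ) (G : E3 → SV), Slow K σ ω → Slow K σ σ → Slow K σ μ → Sm G → Per G →
      ∑ j ∈ range n, tint (fun x => μ x * ω x * zz j σ G x)
        ≤ ε * tint (fun x => μ x * ω x * zz n σ G x) + C * tint fun x => μ x * ω x * zz 0 σ G x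

/-- The transport inequality. -/
def TrStmt : Prop :=
  ∀ K : ℕ → ℝ, ∃ K0 : ℝ, ∀ (n : ℕ) (θ ε : ℝ), 0 < θ → θ ≤ 1 → 0 < ε → ∃ C : ℝ, 0 < C ∧
    ∀ (F : Fld) (lam : ℝ) (ω σ μ ωt σt γ : E3 → ℝ) (G : E3 → SV), 0 ≤ lam → F.Reg → F.Bd K σ μ →
      WtBd F K lam ω σ μ ωt σt γ → Continuous ωt → Continuous σt → Continuous γ → Sm G → Per G →
      tint (et n θ ω σ ωt σt G) + tint (fun x => γ x * bb n θ σ G G x)
        ≤ 2 * En n θ ω σ (F.tr G) G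
          + (θ ^ n * (K0 - 2 * n * lam) + ε) * tint (fun x => μ x * ω x * zz n σ G x)
          + C * ∑ j ∈ range n, tint (fun x => μ x * ω x * zz j σ G x)
          + C * tint fun x => μ x * ω x * yw n σ G x

end Pool.Agent.MP_187b32_an
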