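import Pool.Agent.MP_187b32_an.En.Defs
import Pool.Agent.MP_187b32_an.Calc.XSob

/-!
Module M4a: the time derivative of the weighted energy.
-/

set_option autoImplicit false

open MeasureTheory Pool.Agent.Boltz Finset

noncomputable section

namespace Pool.Agent.MP_187b32_an

namespace Et

lemma smD_pow {σ σt : ℝ → E3 → ℝ} (h : SmD σ σt) (k : ℕ) :
    SmD (fun s x => σ s x ^ k) fun s x => k * σ s x ^ (k - 1) * σt s x := by
  induction k with
  | zero =>
    refine ((Sm.const (1 : ℝ)).smD.congr fun s x => ?_).congr_deriv fun s x => ?_ <;> simp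
  | succ k ih =>
    refine ((ih.mul h).congr fun s x => (pow_succ _ _).symm).congr_deriv fun s x => ?_
    rcases k with _ | k
    · simp
    · simp only [Nat.add_sub_cancel]
      push_cast
      ring

lemma smC_const_mul {c : ℝ → E3 → ℝ} (h : SmC c) (a : ℝ) : SmC fun s x => a * c s x :=
  h.const_smul a

lemma smD_const_mul {c c' : ℝ → E3 → ℝ} (h : SmD c c') (a : ℝ) :
    SmD (fun s x => a * c s x) fun s x => a * c' s x :=
  h.const_smul a

/-- The sum over the words of one level. -/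
def lv (j m : ℕ) (G H : E3 → SV) (x : E3) : ℝ :=
  ∑ u ∈ words j, ip (dXw u G x) (RR m (dXw u H x))

lemma smC_lv {g h : ℝ → E3 → SV} (hg : SmC g) (hh : SmC h) (j m : ℕ) :
    SmC fun s x => lv j m (g s) (h s) x :=
  SmC.sum (g := fun u s x => ip (dXw u (g s) x) (RR m (dXw u (h s) x))) _ fun u _ =>
    (hg.dXw u).ip ((hh.dXw u).clm (RR m))

lemma smD_lv {g g' : ℝ → E3 → SV} (hg : SmD g g') (j m : ℕ) :
    SmD (fun s x => lv j m (g s) (g s) x) fun s x => 2 * lv j m (g' s) (g s) x := by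
  refine (SmD.sum (g := fun u s x => ip (dXw u (g s) x) (RR m (dXw u (g s) x))) (words j)
    fun u _ => (hg.dXw u).ip ((hg.dXw u).clm (RR m))).congr_deriv fun s x => ?_
  rw [lv, mul_sum]
  refine sum_congr rfl fun u _ => ?_
  rw [← nB_apply, ← nB_apply, nB_comm m (dXw u (g s) x)]
  ring

lemma bb_eq (n : ℕ) (θ : ℝ) (σ : E3 → ℝ) (G H : E3 → SV) (x : E3) :
    bb n θ σ G H x = ∑ j ∈ range (n + 1), ∑ m ∈ range (n + 1 - j),
      θ ^ (j + m) * (σ x ^ (2 * j) * lv j m G H x) := by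
  simp only [bb, lev, lv, mul_assoc]

/-- The contribution of the time derivative of the length scale. -/
def sp (n : ℕ) (θ : ℝ) (σ σt : E3 → ℝ) (G : E3 → SV) (x : E3) : ℝ :=
  ∑ j ∈ range (n + 1), ∑ m ∈ range (n + 1 - j),
    θ ^ (j + m) * ((2 * j * σ x ^ (2 * j - 1) * σt x) * lv j m G G x)

lemma et_eq (n : ℕ) (θ : ℝ) (ω σ ωt σt : E3 → ℝ) (G : E3 → SV) (x : E3) :
    et n θ ω σ ωt σt G x = ωt x * bb n θ σ G G x + ω x * sp n θ σ σt G x := by
  simp only [et, sp, lv, mul_assoc]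

lemma smC_bb' (n : ℕ) (θ : ℝ) {σ σt : ℝ → E3 → ℝ} {g h : ℝ → E3 → SV} (hσ : SmD σ σt)
    (hg : SmC g) (hh : SmC h) : SmC fun s x => bb n θ (σ s) (g s) (h s) x := by
  simp only [bb_eq]
  exact SmC.sum (g := fun j s x => ∑ m ∈ range (n + 1 - j),
      θ ^ (j + m) * (σ s x ^ (2 * j) * lv j m (g s) (h s) x)) _ fun j _ =>
    SmC.sum (g := fun m s x => θ ^ (j + m) * (σ s x ^ (2 * j) * lv j m (g s) (h s) x)) _
      fun m _ => smC_const_mul ((smD_pow hσ _).sm.mul (smC_lv hg hh j m)) _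

lemma smC_sp (n : ℕ) (θ : ℝ) {σ σt : ℝ → E3 → ℝ} {g : ℝ → E3 → SV} (hσ : SmD σ σt)
    (hg : SmC g) : SmC fun s x => sp n θ (σ s) (σt s) (g s) x := by
  refine SmC.sum (g := fun j s x => ∑ m ∈ range (n + 1 - j), θ ^ (j + m) *
      ((2 * j * σ s x ^ (2 * j - 1) * σt s x) * lv j m (g s) (g s) x)) _ fun j _ =>
    SmC.sum (g := fun m s x => θ ^ (j + m) *
      ((2 * j * σ s x ^ (2 * j - 1) * σt s x) * lv j m (g s) (g s) x)) _
      fun m _ => smC_const_mul (SmC.mul ?_ (smC_lv hg hg j m)) _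
  refine (smD_pow hσ (2 * j)).sm'.congr fun s x => ?_
  push_cast
  ring

lemma smD_bb (n : ℕ) (θ : ℝ) {σ σt : ℝ → E3 → ℝ} {g g' : ℝ → E3 → SV} (hσ : SmD σ σt)
    (hg : SmD g g') : SmD (fun s x => bb n θ (σ s) (g s) (g s) x)
      fun s x => sp n θ (σ s) (σt s) (g s) x + 2 * bb n θ (σ s) (g' s) (g s) x := by
  simp only [bb_eq]
  refine (SmD.sum (g := fun j s x => ∑ m ∈ range (n + 1 - j),
      θ ^ (j + m) * (σ s x ^ (2 * j) * lv j m (g s) (g s) x)) (range (n + 1)) fun j _ =>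
    SmD.sum (g := fun m s x => θ ^ (j + m) * (σ s x ^ (2 * j) * lv j m (g s) (g s) x))
      (range (n + 1 - j))
      fun m _ => smD_const_mul ((smD_pow hσ _).mul (smD_lv hg j m)) _).congr_deriv fun s x => ?_
  rw [sp, mul_sum, ← sum_add_distrib]
  refine sum_congr rfl fun j _ => ?_
  rw [mul_sum, ← sum_add_distrib]
  refine sum_congr rfl fun m _ => ?_
  push_cast
  ring

end Et

open Et in
theorem etStmt : EtStmt := by
  intro n θ ω ωt σ σt g g' hω hσ hg
  have h1 : SmC fun s x => et n θ (ω s) (σ s) (ωt s) (σt s) (g s) x := by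
    simp only [et_eq]
    exact (hω.sm'.mul (smC_bb' n θ hσ hg.sm hg.sm)).add (hω.sm.mul (smC_sp n θ hσ hg.sm))
  have h2 : SmC fun s x => ω s x * bb n θ (σ s) (g' s) (g s) x :=
    hω.sm.mul (smC_bb' n θ hσ hg.sm' hg.sm)
  refine ⟨h1.continuous_tint.add (continuous_const.mul h2.continuous_tint), fun s => ?_⟩
  have h3 := (hω.mul (smD_bb n θ hσ hg)).hasDerivAt_tint s
  refine h3.congr_deriv ?_
  have h4 := tint_add (h1.cont_slice s) ((smC_const_mul h2 2).cont_slice s)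
  rw [En, ← tint_const_mul]
  refine Eq.trans (tint_congr fun x => ?_) h4
  rw [et_eq]
  ring

end Pool.Agent.MP_187b32_an
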