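import Pool.Agent.MP_187b32_an.En.Defs
import Pool.Agent.MP_187b32_an.Calc.Torus

/-! Weighted interpolation between the hydrodynamic levels. -/

set_option autoImplicit false

open Pool.Agent.Boltz Finset

noncomputable section

namespace Pool.Agent.MP_187b32_an

namespace Interp

lemma seq_interp (P : (ℕ → ℝ) → Prop) (h0 : ∀ H, P H → ∀ j, 0 ≤ H j)
    (h : ∀ j δ, 0 < δ → ∃ C : ℝ, 0 < C ∧ ∀ H, P H → H (j + 1) ≤ δ * H (j + 2) + C * H j)
    (n : ℕ) : ∀ ε : ℝ, 0 < ε → ∃ C : ℝ, 0 < C ∧ ∀ H, P H →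
      ∑ j ∈ range (n + 1), H j ≤ ε * H (n + 1) + C * H 0 := by
  induction n with
  | zero =>
    refine fun ε hε => ⟨1, one_pos, fun H hH => ?_⟩
    have := mul_nonneg hε.le (h0 H hH 1)
    simp only [zero_add, range_one, sum_singleton, one_mul]
    linarith
  | succ n ih =>
    intro ε hε
    obtain ⟨C1, hC1, h1⟩ := ih 1 one_pos
    obtain ⟨C2, hC2, h2⟩ := h n (ε / 4) (by positivity)
    obtain ⟨C3, hC3, h3⟩ := ih (1 / (2 * C2)) (by positivity)
    refine ⟨C1 + 4 * (C2 * C3), by positivity, fun H hH => ?_⟩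
    have a1 := h1 H hH
    have a2 := h2 H hH
    have a3 : H n ≤ 1 / (2 * C2) * H (n + 1) + C3 * H 0 :=
      (single_le_sum (fun j _ => h0 H hH j) (self_mem_range_succ n)).trans (h3 H hH)
    have a4 : C2 * H n ≤ 1 / 2 * H (n + 1) + C2 * C3 * H 0 := by
      calc C2 * H n ≤ C2 * (1 / (2 * C2) * H (n + 1) + C3 * H 0) := by gcongr
        _ = _ := by field_simp
    rw [sum_range_succ]
    linarith

lemma slow_mul {K L : ℝ} {σ a b : E3 → ℝ} (hσ : ∀ x, 0 < σ x) (ha : Slow K σ a)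
    (hb : Slow L σ b) : Slow (K + L) σ fun x => a x * b x := by
  refine ⟨ha.sm.mul hb.sm, ha.per.map₂ hb.per (· * ·), fun x => mul_pos (ha.pos x) (hb.pos x),
    fun i x => ?_⟩
  rw [dX_mul ha.sm.dif hb.sm.dif]
  have h1 := mul_le_mul_of_nonneg_right (ha.bd i x) (hb.pos x).le
  have h2 := mul_le_mul_of_nonneg_left (hb.bd i x) (ha.pos x).le
  have h3 := mul_le_mul_of_nonneg_left (abs_add_le (dX i a x * b x) (a x * dX i b x)) (hσ x).le
  rw [abs_mul, abs_mul, abs_of_pos (ha.pos x), abs_of_pos (hb.pos x)] at h3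
  simp only
  linarith

lemma slow_pow {K L : ℝ} {σ a : E3 → ℝ} (hσ : Slow K σ σ) (ha : Slow L σ a) (m : ℕ) :
    Slow (L + m * K) σ fun x => a x * σ x ^ m := by
  induction m with
  | zero => simpa using ha
  | succ m ih =>
    have := slow_mul hσ.pos ih hσ
    simpa only [pow_succ, mul_assoc, Nat.cast_succ, add_mul, one_mul, add_assoc] using this

lemma two_ip_le (a b : ℝ) (f g : SV) (hab : 0 ≤ a * b) :
    2 * (a * b) * |ip f g| ≤ a ^ 2 * ip f f + b ^ 2 * ip g g := by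
  have h1 := mul_le_mul_of_nonneg_left (abs_ip_le f g) hab
  have h2 := Real.sq_sqrt (ip_self_nonneg f)
  have h3 := Real.sq_sqrt (ip_self_nonneg g)
  nlinarith [sq_nonneg (a * √(ip f f) - b * √(ip g g))]

lemma cont_ip {X Y : E3 → SV} (hX : Sm X) (hY : Sm Y) : Continuous fun x => ip (X x) (Y x) :=
  (Sm.bilin _ continuous_ip hX hY).cont

lemma step {K L δ : ℝ} (hδ : 0 < δ) {σ w : E3 → ℝ} (hσ : Slow K σ σ) (hw : Slow L σ w)
    {X : E3 → SV} (hX : Sm X) (pX : Per X) (i : Fin 3) :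
    tint (fun x => w x * σ x ^ 2 * ip (dX i X x) (dX i X x))
      ≤ δ * tint (fun x => w x * σ x ^ 4 * ip (dX i (dX i X) x) (dX i (dX i X) x))
        + ((L + 2 * K) ^ 2 + δ⁻¹) * tint fun x => w x * ip (X x) (X x) := by
  have hv := slow_pow hσ hw 2
  have h1 := hX.dX i
  have h2 := h1.dX i
  have cσ := hσ.sm.cont
  have cw := hw.sm.cont
  have c0 := cont_ip hX hX
  have c1 := cont_ip h1 h1
  have c2 := cont_ip h2 h2
  have e := tint_bilin_dX ip continuous_ip hX (hv.sm.smul h1) pX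
    (hv.per.map₂ (pX.dX i) (· • ·)) i
  rw [dX_smul hv.sm.dif h1.dif, ← tint_neg] at e
  simp only [map_smul, map_add, smul_eq_mul] at e
  have b := tint_mono (φ := fun x => 2 * -(dX i (fun x => w x * σ x ^ 2) x * ip (X x) (dX i X x)
      + w x * σ x ^ 2 * ip (X x) (dX i (dX i X) x)))
    (ψ := fun x => w x * σ x ^ 2 * ip (dX i X x) (dX i X x)
      + (δ * (w x * σ x ^ 4 * ip (dX i (dX i X) x) (dX i (dX i X) x))
        + ((L + 2 * K) ^ 2 + δ⁻¹) * (w x * ip (X x) (X x))))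
    (by
      have := (hv.sm.dX i).cont
      have := cont_ip hX h1
      have := cont_ip hX h2
      fun_prop) (by fun_prop) fun x => by
    have s0 := hσ.pos x
    have w0 := hw.pos x
    have d1 : |dX i (fun x => w x * σ x ^ 2) x| ≤ (L + 2 * K) * σ x * w x := by
      refine le_of_mul_le_mul_left ((hv.bd i x).trans (le_of_eq ?_)) s0
      push_cast; ring
    have d2 : 0 ≤ (L + 2 * K) * σ x := nonneg_of_mul_nonneg_left ((abs_nonneg _).trans d1) w0
    have p1 := mul_le_mul_of_nonneg_left (two_ip_le _ _ (X x) (dX i X x) d2) w0.le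
    have p2 := mul_le_mul_of_nonneg_left (two_ip_le 1 (δ * σ x ^ 2) (X x) (dX i (dX i X) x)
      (by positivity)) (show 0 ≤ δ⁻¹ * w x by positivity)
    have q1 := neg_abs_le (dX i (fun x => w x * σ x ^ 2) x * ip (X x) (dX i X x))
    have q2 := mul_le_mul_of_nonneg_left (neg_abs_le (ip (X x) (dX i (dX i X) x)))
      (show 0 ≤ w x * σ x ^ 2 by positivity)
    rw [abs_mul] at q1
    have q3 := mul_le_mul_of_nonneg_right d1 (abs_nonneg (ip (X x) (dX i X x)))
    have r1 : δ⁻¹ * w x * (2 * (1 * (δ * σ x ^ 2)) * |ip (X x) (dX i (dX i X) x)|)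
        = 2 * (w x * σ x ^ 2 * |ip (X x) (dX i (dX i X) x)|) := by field_simp
    have r2 : δ⁻¹ * w x * (1 ^ 2 * ip (X x) (X x)
        + (δ * σ x ^ 2) ^ 2 * ip (dX i (dX i X) x) (dX i (dX i X) x))
        = δ⁻¹ * (w x * ip (X x) (X x))
          + δ * (w x * σ x ^ 4 * ip (dX i (dX i X) x) (dX i (dX i X) x)) := by field_simp
    rw [r1, r2] at p2
    linarith
  rw [tint_const_mul, ← e, tint_add (by fun_prop) (by fun_prop),
    tint_add (by fun_prop) (by fun_prop), tint_const_mul, tint_const_mul] at b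
  linarith

/-- one term of the level sum -/
def tm (a σ : E3 → ℝ) (W : E3 → SV) (j : ℕ) (u : List (Fin 3)) : ℝ :=
  tint fun x => a x * σ x ^ (2 * j) * ip (dXw u W x) (dXw u W x)

lemma level_eq {ω σ μ : E3 → ℝ} {G : E3 → SV} (hω : Sm ω) (hσ : Sm σ) (hμ : Sm μ) (hG : Sm G)
    (j : ℕ) : tint (fun x => μ x * ω x * zz j σ G x)
      = ∑ u ∈ words j, tm (fun x => μ x * ω x) σ (fun x => PP (G x)) j u := by
  have := hω.cont
  have := hσ.cont
  have := hμ.cont
  unfold tm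
  rw [← tint_sum _ fun u _ => by
    have := cont_ip ((hG.clm PP).dXw u) ((hG.clm PP).dXw u)
    fun_prop]
  refine tint_congr fun x => ?_
  simp only [zz, dXw_clm hG, mul_sum, mul_assoc]

end Interp

open Interp in
theorem interp : InterpStmt := by
  intro K n ε hε
  have tn : ∀ {L : ℝ} {a σ : E3 → ℝ} (W : E3 → SV) j u, Slow L σ a → 0 ≤ tm a σ W j u :=
    fun W j u ha => tint_nonneg fun x =>
      mul_nonneg (mul_nonneg (ha.pos x).le (by rw [pow_mul]; positivity)) (ip_self_nonneg _)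
  let P : (ℕ → ℝ) → Prop := fun H => ∃ (a σ : E3 → ℝ) (W : E3 → SV), Slow (K + K) σ a ∧
    Slow K σ σ ∧ Sm W ∧ Per W ∧ H = fun j => ∑ u ∈ words j, tm a σ W j u
  have h0 : ∀ H, P H → ∀ j, 0 ≤ H j := by
    rintro _ ⟨a, σ, W, ha, -, -, -, rfl⟩ j
    exact sum_nonneg fun u _ => tn W j u ha
  have h1 : ∀ j δ, 0 < δ → ∃ C : ℝ, 0 < C ∧ ∀ H, P H →
      H (j + 1) ≤ δ * H (j + 2) + C * H j := by
    intro j δ hδ
    refine ⟨3 * ((K + K + (2 * j : ℕ) * K + 2 * K) ^ 2 + δ⁻¹), by positivity, ?_⟩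
    rintro _ ⟨a, σ, W, ha, hσ, hW, pW, rfl⟩
    have key : ∀ i u, tm a σ W (j + 1) (i :: u) ≤ δ * tm a σ W (j + 2) (i :: i :: u)
        + ((K + K + (2 * j : ℕ) * K + 2 * K) ^ 2 + δ⁻¹) * tm a σ W j u := fun i u => by
      have := step hδ hσ (slow_pow hσ ha (2 * j)) (hW.dXw u) (pW.dXw u) i
      simp only [tm, dXw, dXw_dX (hW.dX i), dXw_dX hW, mul_add, pow_add, mul_one, ← mul_assoc]
      simpa only [← mul_assoc] using this
    simp only [sum_words_succ]
    calc _ ≤ ∑ i : Fin 3, ∑ u ∈ words j, (δ * tm a σ W (j + 2) (i :: i :: u)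
          + ((K + K + (2 * j : ℕ) * K + 2 * K) ^ 2 + δ⁻¹) * tm a σ W j u) :=
          sum_le_sum fun i _ => sum_le_sum fun u _ => key i u
      _ = δ * ∑ i : Fin 3, ∑ u ∈ words j, tm a σ W (j + 2) (i :: i :: u)
          + 3 * ((K + K + (2 * j : ℕ) * K + 2 * K) ^ 2 + δ⁻¹) * ∑ u ∈ words j, tm a σ W j u := by
          simp only [sum_add_distrib, ← mul_sum, sum_const, card_univ, Fintype.card_fin,
            nsmul_eq_mul]
          push_cast; ring
      _ ≤ _ := by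
          gcongr with i
          exact single_le_sum (f := fun l => ∑ u ∈ words j, tm a σ W (j + 2) (i :: l :: u))
            (fun l _ => sum_nonneg fun u _ => tn W _ _ ha) (mem_univ i)
  have hP : ∀ (ω σ μ : E3 → ℝ) (G : E3 → SV), Slow K σ ω → Slow K σ σ → Slow K σ μ → Sm G →
      Per G → P fun j => tint fun x => μ x * ω x * zz j σ G x :=
    fun ω σ μ G hω hσ hμ hG pG => ⟨_, σ, _, slow_mul hσ.pos hμ hω, hσ, hG.clm PP, pG.map PP,
      funext fun j => level_eq hω.sm hσ.sm hμ.sm hG j⟩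
  cases n with
  | zero =>
    refine ⟨1, one_pos, fun ω σ μ G hω hσ hμ hG pG => ?_⟩
    have := h0 _ (hP ω σ μ G hω hσ hμ hG pG) 0
    simp only [range_zero, sum_empty]
    positivity
  | succ n =>
    obtain ⟨C, hC, h⟩ := seq_interp P h0 h1 n ε hε
    exact ⟨C, hC, fun ω σ μ G hω hσ hμ hG pG => h _ (hP ω σ μ G hω hσ hμ hG pG)⟩

end Pool.Agent.MP_187b32_an
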