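import Pool.Agent.MP_187b32_an.En.Split
import Pool.Agent.MP_187b32_an.Herm.Macro

/-!
The transport inequality at one point, as an inequality between jets: definitions, the
decomposition of one term, the diagonal and the lower order parts.
-/

set_option autoImplicit false

open Pool.Agent.Boltz Finset

noncomputable section

namespace Pool.Agent.MP_187b32_an

/-- Index set of the velocity terms. -/
abbrev TI : Type := Fin 3 ⊕ (Fin 3 × Fin 3) ⊕ (Fin 3 × Fin 3)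

/-- The operators of the velocity terms. -/
def opT : TI → SV →L[ℝ] SV
  | Sum.inl l => ap l
  | Sum.inr (Sum.inl p) => (mulV p.1).comp (ap p.2)
  | Sum.inr (Sum.inr p) => (mulV p.1).comp ((mulV p.2).comp (ap p.2))

/-- The coefficients of the velocity terms. -/
def Fld.tv (F : Fld) : TI → E3 → ℝ
  | Sum.inl l => F.b0 l
  | Sum.inr (Sum.inl p) => F.b1 p.1 p.2
  | Sum.inr (Sum.inr p) => F.b2 p.1

lemma Fld.vel_eq (F : Fld) (x : E3) (f : SV) : F.vel x f = -∑ α, F.tv α x • opT α f := by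
  simp [Fld.vel, Fld.tv, opT, Fintype.sum_sum_type, Fintype.sum_prod_type, add_assoc]

lemma VStmt.opT_top (hV : VStmt) (m : ℕ) :
    ∃ C : ℝ, 0 < C ∧ ∀ α f, |ip (opT α f) (RR m f)| ≤ C * WW m f := by
  obtain ⟨C, hC, h⟩ := hV.top m
  refine ⟨C, hC, fun α f => ?_⟩
  rcases α with l | p | p
  · exact (h l l l f).1
  · exact (h p.1 p.1 p.2 f).2.1
  · exact (h p.1 p.2 p.2 f).2.2

lemma VStmt.opT_low (hV : VStmt) (m : ℕ) : ∃ C : ℝ, 0 < C ∧ ∀ α f g,
    |ip (opT α f) (RR m g)| ≤ C * √(WW (m + 1) f) * √(WW m g) := by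
  obtain ⟨C, hC, h⟩ := hV.low m
  refine ⟨C, hC, fun α f g => ?_⟩
  rcases α with l | p | p
  · exact (h l l l f g).1
  · exact (h p.1 p.1 p.2 f g).2.1
  · exact (h p.1 p.2 p.2 f g).2.2

lemma VStmt.WW_nonneg (hV : VStmt) (m : ℕ) (f : SV) : 0 ≤ WW m f :=
  sum_nonneg fun _ _ => sum_nonneg fun _ _ => hV.wq_nonneg _

lemma unif_const {P : ℕ → ℝ → Prop} (h : ∀ m, ∃ C : ℝ, 0 < C ∧ P m C) (n : ℕ) :
    ∃ (c : ℕ → ℝ) (C : ℝ), 0 < C ∧ (∀ m, 0 < c m ∧ P m (c m)) ∧ ∀ m, m ≤ n → c m ≤ C := by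
  choose c hc hP using h
  refine ⟨c, ∑ m ∈ range (n + 1), c m, sum_pos (fun m _ => hc m) (by simp),
    fun m => ⟨hc m, hP m⟩, fun m hm => ?_⟩
  exact single_le_sum (f := c) (fun m _ => (hc m).le) (mem_range.2 (by omega))

/-- The numbers and velocity functions that enter the inequality at one point. -/
structure Jet where
  U : Fin 3 → List (Fin 3) → ℝ
  Cc : List (Fin 3) → ℝ
  t : TI → List (Fin 3) → ℝ
  σ : ℝ
  ω : ℝ
  μ : ℝ
  ωt : ℝ
  σt : ℝ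
  γ : ℝ
  dω : Fin 3 → ℝ
  dσ : Fin 3 → ℝ
  dv : Fin 3 → ℝ
  g : List (Fin 3) → SV

namespace Jet

variable (J : Jet)

/-- The hypotheses on a jet. -/
structure H (K : ℕ → ℝ) (lam : ℝ) : Prop where
  σ_pos : 0 < J.σ
  ω_pos : 0 < J.ω
  μ_pos : 0 < J.μ
  hU : ∀ i w, 2 ≤ w.length → J.σ ^ w.length * |J.U i w| ≤ K w.length * (J.μ * J.σ)
  hC : ∀ w, J.σ ^ w.length * |J.Cc w| ≤ K w.length * (J.μ * J.σ)
  ht : ∀ α w, J.σ ^ w.length * |J.t α w| ≤ K w.length * J.μ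
  hdω : ∀ i, J.σ * |J.dω i| ≤ K 1 * J.ω
  hdσ : ∀ i, J.σ * |J.dσ i| ≤ K 1 * J.σ
  hω : J.ωt + ∑ i, J.dv i + J.γ ≤ K 0 * J.μ * J.ω
  rep : ∀ ξ : Fin 3 → ℝ, lam * J.μ * J.σ * ∑ i, ξ i ^ 2 ≤
    (-J.σt - ∑ i, J.U i [] * J.dσ i - 9 / 4 * |J.Cc []| * √(∑ i, J.dσ i ^ 2)
        - 9 / 4 * J.σ * √(∑ i, J.Cc [i] ^ 2)) * ∑ i, ξ i ^ 2
      + J.σ * ∑ p, ∑ i, ξ p * ξ i * J.U i [p]

def Nn (m : ℕ) (u w : List (Fin 3)) : ℝ := ip (J.g u) (RR m (J.g w))

def Mv (m : ℕ) (i : Fin 3) (u w : List (Fin 3)) : ℝ := ip (mulV i (J.g u)) (RR m (J.g w))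

def Tv (m : ℕ) (α : TI) (u w : List (Fin 3)) : ℝ := ip (opT α (J.g u)) (RR m (J.g w))

def pU (m : ℕ) (i : Fin 3) (a b : List (Fin 3)) : ℝ := J.U i a * J.Nn m (i :: b) (a ++ b)

def pC (m : ℕ) (i : Fin 3) (a b : List (Fin 3)) : ℝ := J.Cc a * J.Mv m i (i :: b) (a ++ b)

def pT (m : ℕ) (α : TI) (a b : List (Fin 3)) : ℝ := J.t α a * J.Tv m α b (a ++ b)

/-- Pairing of the differentiated transport term with the differentiated function. -/
def A (m : ℕ) (u : List (Fin 3)) : ℝ :=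
  ∑ i, SP u (J.pU m i) + ∑ i, SP u (J.pC m i) - ∑ α, SP u (J.pT m α)

/-- Derivative of the flux. -/
def dJ (j m : ℕ) (i : Fin 3) (u : List (Fin 3)) : ℝ :=
  J.dv i * (J.σ ^ (2 * j) * J.Nn m u u)
    + J.U i [] * J.ω * (2 * j * J.σ ^ (2 * j - 1) * J.dσ i * J.Nn m u u
      + J.σ ^ (2 * j) * (2 * J.Nn m (i :: u) u))
    + ((J.dω i * J.Cc [] + J.ω * J.Cc [i]) * (J.σ ^ (2 * j) * NV m i (J.g u) (J.g u))
      + J.ω * J.Cc [] * (2 * j * J.σ ^ (2 * j - 1) * J.dσ i * NV m i (J.g u) (J.g u)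
        + J.σ ^ (2 * j) * (2 * NV m i (J.g (i :: u)) (J.g u))))

/-- One term of the inequality. -/
def q (j m : ℕ) (u : List (Fin 3)) : ℝ :=
  (J.ωt * J.σ ^ (2 * j) + J.ω * (2 * j * J.σ ^ (2 * j - 1) * J.σt) + J.γ * J.σ ^ (2 * j))
    * J.Nn m u u - 2 * J.ω * J.σ ^ (2 * j) * J.A m u + ∑ i, J.dJ j m i u

def diag (j m : ℕ) (u : List (Fin 3)) : ℝ :=
  J.σ ^ (2 * j) * ((J.ωt + ∑ i, J.dv i + J.γ) * J.Nn m u u
    + ∑ i, (J.dω i * J.Cc [] + J.ω * J.Cc [i]) * NV m i (J.g u) (J.g u)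
    + 2 * J.ω * ∑ α, J.t α [] * J.Tv m α u u)

def f1 (j m : ℕ) (u : List (Fin 3)) : ℝ :=
  J.ω * (2 * j * J.σ ^ (2 * j - 1)) * ((J.σt + ∑ i, J.U i [] * J.dσ i) * J.Nn m u u
      + J.Cc [] * ∑ i, J.dσ i * NV m i (J.g u) (J.g u))
    - 2 * J.ω * J.σ ^ (2 * j) * ∑ i, (O1 u (J.pU m i) + O1 u (J.pC m i))

def err (j m : ℕ) (u : List (Fin 3)) : ℝ :=
  2 * J.ω * (∑ i, J.σ ^ (2 * j) * (J.Cc [] * (NV m i (J.g (i :: u)) (J.g u) - J.Mv m i (i :: u) u))
    - ∑ i, J.σ ^ (2 * j) * (SP u (J.pU m i) - J.pU m i [] u - O1 u (J.pU m i))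
    - ∑ i, J.σ ^ (2 * j) * (SP u (J.pC m i) - J.pC m i [] u - O1 u (J.pC m i))
    + ∑ α, J.σ ^ (2 * j) * (SP u (J.pT m α) - J.pT m α [] u))

lemma q_eq (j m : ℕ) (u : List (Fin 3)) : J.q j m u = J.diag j m u + J.f1 j m u + J.err j m u := by
  have e : ∑ α, J.σ ^ (2 * j) * (SP u (J.pT m α) - J.pT m α [] u) =
      J.σ ^ (2 * j) * (∑ α, SP u (J.pT m α) - ∑ α, J.t α [] * J.Tv m α u u) := by
    rw [← mul_sum, sum_sub_distrib]; rfl
  simp only [q, diag, f1, err, A, dJ, e, Fin.sum_univ_three, pU, pC, List.nil_append]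
  ring

/-- Weighted size of one jet component. -/
def rho (u : List (Fin 3)) (m : ℕ) : ℝ := J.σ ^ u.length * √(WW m (J.g u))

end Jet

lemma key_bound {σ c v K C W1 W2 a b : ℝ} {p e N' q1 q2 : ℕ} (hσ : 0 < σ) (hK : 0 ≤ K)
    (hC : 0 ≤ C) (hW1 : 0 ≤ W1) (hW2 : 0 ≤ W2) (hc : σ ^ p * |c| ≤ K * σ ^ e)
    (hv : |v| ≤ C * W1 * W2) (h1 : σ ^ q1 * W1 ≤ a) (h2 : σ ^ q2 * W2 ≤ b)
    (hq : N' + e = q1 + q2) : σ ^ (p + N') * |c * v| ≤ K * C * (a * b) := by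
  have ha : 0 ≤ a := le_trans (by positivity) h1
  calc σ ^ (p + N') * |c * v| = (σ ^ p * |c|) * (σ ^ N' * |v|) := by rw [abs_mul, pow_add]; ring
    _ ≤ (K * σ ^ e) * (σ ^ N' * (C * W1 * W2)) := by gcongr
    _ = K * C * (σ ^ (N' + e) * W1 * W2) := by rw [pow_add]; ring
    _ = K * C * ((σ ^ q1 * W1) * (σ ^ q2 * W2)) := by rw [hq, pow_add]; ring
    _ ≤ K * C * (a * b) := by gcongr

namespace Jet

variable {J : Jet} {K : ℕ → ℝ} {lam : ℝ}

lemma H.K_nonneg (h : J.H K lam) (l : ℕ) : 0 ≤ K l := by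
  have h1 := h.hC (List.replicate l 0)
  rw [List.length_replicate] at h1
  have h2 : 0 < J.μ * J.σ := mul_pos h.μ_pos h.σ_pos
  have h3 : 0 ≤ J.σ ^ l * |J.Cc (List.replicate l 0)| := by have := h.σ_pos; positivity
  by_contra hn
  have := mul_neg_of_neg_of_pos (not_le.1 hn) h2
  linarith

lemma Nn_self_nonneg (m : ℕ) (u : List (Fin 3)) : 0 ≤ J.Nn m u u := by
  rw [Nn, ← nA_eq_ip_RR]; exact nA_nonneg _ _

lemma diag_le (hV : VStmt) (h : J.H K lam) {m : ℕ} {Ct : ℝ}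
    (htop : ∀ α f, |ip (opT α f) (RR m f)| ≤ Ct * WW m f) (j : ℕ) (u : List (Fin 3)) :
    J.diag j m u ≤ (K 0 + 3 * (K 1 * K 0 + K 1) + 42 * K 0 * Ct) * (J.μ * J.ω) *
      (J.σ ^ (2 * j) * WW m (J.g u)) := by
  have hσ := h.σ_pos
  have hω := h.ω_pos
  have hμ := h.μ_pos
  have k0 := h.K_nonneg 0
  have k1 := h.K_nonneg 1
  set W := WW m (J.g u) with hW
  have hW0 : 0 ≤ W := hV.WW_nonneg _ _
  have hsq : √W * √W = W := Real.mul_self_sqrt hW0
  have h1 : (J.ωt + ∑ i, J.dv i + J.γ) * J.Nn m u u ≤ K 0 * J.μ * J.ω * W := by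
    have a1 : J.Nn m u u ≤ W := by
      have := hV.rr m (J.g u) (J.g u)
      rw [hsq] at this
      exact (le_abs_self _).trans this
    calc _ ≤ K 0 * J.μ * J.ω * J.Nn m u u :=
          mul_le_mul_of_nonneg_right h.hω (Nn_self_nonneg m u)
      _ ≤ _ := by gcongr
  have hc0 : |J.Cc []| ≤ K 0 * (J.μ * J.σ) := by simpa using h.hC []
  have h2 : ∀ i, (J.dω i * J.Cc [] + J.ω * J.Cc [i]) * NV m i (J.g u) (J.g u)
      ≤ (K 1 * K 0 + K 1) * (J.μ * J.ω) * W := by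
    intro i
    have a1 := hV.nv m i (J.g u) (J.g u)
    rw [hsq] at a1
    have a2 : |J.Cc [i]| ≤ K 1 * J.μ := by
      have := h.hC [i]
      simp only [List.length_singleton, pow_one] at this
      exact le_of_mul_le_mul_left (by linarith) hσ
    have a3 : |J.dω i * J.Cc []| ≤ K 1 * K 0 * (J.μ * J.ω) := by
      rw [abs_mul]
      calc |J.dω i| * |J.Cc []| ≤ |J.dω i| * (K 0 * (J.μ * J.σ)) := by gcongr
        _ = K 0 * J.μ * (J.σ * |J.dω i|) := by ring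
        _ ≤ K 0 * J.μ * (K 1 * J.ω) := mul_le_mul_of_nonneg_left (h.hdω i) (by positivity)
        _ = _ := by ring
    have a4 : |J.dω i * J.Cc [] + J.ω * J.Cc [i]| ≤ (K 1 * K 0 + K 1) * (J.μ * J.ω) := by
      refine (abs_add_le _ _).trans ?_
      rw [abs_mul J.ω, abs_of_pos hω]
      nlinarith [mul_le_mul_of_nonneg_left a2 hω.le]
    refine (le_abs_self _).trans ?_
    rw [abs_mul]
    gcongr
  have h3 : ∀ α, J.t α [] * J.Tv m α u u ≤ K 0 * J.μ * (Ct * W) := by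
    intro α
    have a1 : |J.t α []| ≤ K 0 * J.μ := by simpa using h.ht α []
    refine (le_abs_self _).trans ?_
    rw [abs_mul]
    gcongr
    exact htop α _
  have h2' := sum_le_card_nsmul univ _ _ fun i _ => h2 i
  have h3' := sum_le_card_nsmul univ _ _ fun α _ => h3 α
  simp only [card_univ, Fintype.card_sum, Fintype.card_prod, Fintype.card_fin, nsmul_eq_mul]
    at h2' h3'
  push_cast at h2' h3'
  have h4 := mul_le_mul_of_nonneg_left h3' (by positivity : 0 ≤ 2 * J.ω)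
  unfold diag
  rw [mul_left_comm]
  refine mul_le_mul_of_nonneg_left ?_ (by positivity)
  linarith

lemma err_le (hV : VStmt) (h : J.H K lam) {n j m : ℕ} {Kn Cn a b : ℝ} (hK : ∀ l, l ≤ n → K l ≤ Kn)
    (hCn : 1 ≤ Cn)
    (hcomm : ∀ m', m = m' + 1 → ∀ i f g, |ip (mulV i f) (RR (m' + 1) g) - NV (m' + 1) i f g|
      ≤ Cn * √(WW m' f) * √(WW (m' + 1) g))
    (hmv : ∀ i f g, |ip (mulV i f) (RR m g)| ≤ Cn * √(WW m f) * √(WW m g))
    (hlow : ∀ α f g, |ip (opT α f) (RR m g)| ≤ Cn * √(WW (m + 1) f) * √(WW m g))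
    (ha : ∀ u m, u.length + m ≤ n → u.length < n → J.rho u m ≤ a)
    (hb : ∀ u m, u.length + m ≤ n → J.rho u m ≤ b) (ha0 : 0 ≤ a) (hb0 : 0 ≤ b)
    (hjm : j + m ≤ n) (u : List (Fin 3)) (hu : u.length = j) :
    J.err j m u ≤ 60 * 2 ^ n * Kn * Cn * (J.μ * J.ω) * (a * b) := by
  have hσ := h.σ_pos
  have hω := h.ω_pos
  have hμ := h.μ_pos
  have hKn : 0 ≤ Kn := (h.K_nonneg 0).trans (hK 0 (Nat.zero_le _))
  have hCn0 : 0 ≤ Cn := by linarith
  set M := Kn * J.μ * Cn * (a * b) with hM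
  have hM0 : 0 ≤ M := by positivity
  have hs : 0 < J.σ ^ (2 * j) := by positivity
  have h2n : (2 : ℝ) ^ u.length ≤ 2 ^ n := pow_le_pow_right₀ (by norm_num) (by omega)
  have h1n : (1 : ℝ) ≤ 2 ^ n := one_le_pow₀ (by norm_num)
  have hKμ : ∀ l, l ≤ n → K l * (J.μ * J.σ) ≤ Kn * J.μ * J.σ ^ 1 := fun l hl => by
    rw [pow_one, mul_assoc]; gcongr; exact hK l hl
  have fin : ∀ v : ℝ, |v| ≤ 2 ^ u.length * (M / J.σ ^ (2 * j)) →
      |J.σ ^ (2 * j) * v| ≤ 2 ^ n * M := fun v hv => by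
    rw [abs_mul, abs_of_pos hs]
    calc _ ≤ J.σ ^ (2 * j) * (2 ^ u.length * (M / J.σ ^ (2 * j))) := by gcongr
      _ = 2 ^ u.length * M := by field_simp
      _ ≤ _ := by gcongr
  have e1 : ∀ i, |J.σ ^ (2 * j) *
      (J.Cc [] * (NV m i (J.g (i :: u)) (J.g u) - J.Mv m i (i :: u) u))| ≤ 2 ^ n * M := by
    intro i
    rcases m with _ | m'
    · have : NV 0 i (J.g (i :: u)) (J.g u) - J.Mv 0 i (i :: u) u = 0 := by simp [NV, Mv, words]
      rw [this]; simp; positivity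
    · have a1 := hcomm m' rfl i (J.g (i :: u)) (J.g u)
      rw [abs_sub_comm] at a1
      have := key_bound (p := 0) (e := 1) (N' := 2 * j) hσ (by positivity : 0 ≤ Kn * J.μ) hCn0
        (Real.sqrt_nonneg _) (Real.sqrt_nonneg _) ((h.hC []).trans (hKμ 0 (Nat.zero_le _))) a1
        (hb (i :: u) m' (by simp; omega)) (ha u (m' + 1) (by omega) (by omega)) (by simp; omega)
      rw [zero_add, mul_comm b a] at this
      rw [abs_mul, abs_of_pos hs]
      exact this.trans (le_mul_of_one_le_left hM0 h1n)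
  have e2 : ∀ i, |J.σ ^ (2 * j) * (SP u (J.pU m i) - J.pU m i [] u - O1 u (J.pU m i))|
      ≤ 2 ^ n * M := by
    intro i
    refine fin _ (abs_SP_sub2_le (by positivity) u _ fun c d hc hcd => ?_)
    rw [le_div_iff₀ hs, mul_comm]
    have a1 : |J.Nn m (i :: d) (c ++ d)| ≤ Cn * √(WW m (J.g (i :: d))) * √(WW m (J.g (c ++ d))) :=
      (hV.rr m _ _).trans (by
        rw [mul_assoc]; exact le_mul_of_one_le_left (by positivity) hCn)
    have := key_bound (p := c.length) (e := 1) (N' := d.length + j) hσ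
      (by positivity : 0 ≤ Kn * J.μ) hCn0 (Real.sqrt_nonneg _) (Real.sqrt_nonneg _)
      ((h.hU i c hc).trans (hKμ _ (by omega))) a1
      (ha (i :: d) m (by simp; omega) (by simp; omega)) (hb (c ++ d) m (by simp; omega))
      (by simp; omega)
    rwa [show c.length + (d.length + j) = 2 * j by omega] at this
  have e3 : ∀ i, |J.σ ^ (2 * j) * (SP u (J.pC m i) - J.pC m i [] u - O1 u (J.pC m i))|
      ≤ 2 ^ n * M := by
    intro i
    refine fin _ (abs_SP_sub2_le (by positivity) u _ fun c d hc hcd => ?_)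
    rw [le_div_iff₀ hs, mul_comm]
    have := key_bound (p := c.length) (e := 1) (N' := d.length + j) hσ
      (by positivity : 0 ≤ Kn * J.μ) hCn0 (Real.sqrt_nonneg _) (Real.sqrt_nonneg _)
      ((h.hC c).trans (hKμ _ (by omega))) (hmv i (J.g (i :: d)) (J.g (c ++ d)))
      (ha (i :: d) m (by simp; omega) (by simp; omega)) (hb (c ++ d) m (by simp; omega))
      (by simp; omega)
    rwa [show c.length + (d.length + j) = 2 * j by omega] at this
  have e4 : ∀ α, |J.σ ^ (2 * j) * (SP u (J.pT m α) - J.pT m α [] u)| ≤ 2 ^ n * M := by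
    intro α
    refine fin _ (abs_SP_sub_le (by positivity) u _ fun c d hc hcd => ?_)
    rw [le_div_iff₀ hs, mul_comm]
    have a0 : J.σ ^ c.length * |J.t α c| ≤ Kn * J.μ * J.σ ^ 0 := by
      rw [pow_zero, mul_one]
      exact (h.ht α c).trans (mul_le_mul_of_nonneg_right (hK _ (by omega)) hμ.le)
    have := key_bound (p := c.length) (e := 0) (N' := d.length + j) hσ
      (by positivity : 0 ≤ Kn * J.μ) hCn0 (Real.sqrt_nonneg _) (Real.sqrt_nonneg _)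
      a0 (hlow α (J.g d) (J.g (c ++ d)))
      (ha d (m + 1) (by omega) (by omega)) (hb (c ++ d) m (by simp; omega))
      (by simp; omega)
    rwa [show c.length + (d.length + j) = 2 * j by omega] at this
  have s1 := sum_le_card_nsmul univ _ _ fun i _ => (abs_le.1 (e1 i)).2
  have s2 := card_nsmul_le_sum univ _ _ fun i _ => (abs_le.1 (e2 i)).1
  have s3 := card_nsmul_le_sum univ _ _ fun i _ => (abs_le.1 (e3 i)).1
  have s4 := sum_le_card_nsmul univ _ _ fun α _ => (abs_le.1 (e4 α)).2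
  simp only [card_univ, Fintype.card_sum, Fintype.card_prod, Fintype.card_fin, nsmul_eq_mul]
    at s1 s2 s3 s4
  push_cast at s1 s2 s3 s4
  unfold err
  calc _ ≤ 2 * J.ω * (30 * (2 ^ n * M)) := by
        refine mul_le_mul_of_nonneg_left ?_ (by positivity)
        linarith
    _ = _ := by rw [hM]; ring

end Jet

end Pool.Agent.MP_187b32_an
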