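import Pool.Agent.MP_187b32_an.En.Form

/-!
The transport inequality at one point, summed over all levels.
-/

set_option autoImplicit false

open Pool.Agent.Boltz Finset

noncomputable section

namespace Pool.Agent.MP_187b32_an

namespace Jet

/-- Hydrodynamic size at level `j`. -/
def zz (J : Jet) (j : ℕ) : ℝ := J.σ ^ (2 * j) * ∑ u ∈ words j, ip (PP (J.g u)) (PP (J.g u))

variable {J : Jet} {K : ℕ → ℝ} {lam : ℝ}

lemma rho_sq (hV : VStmt) (u : List (Fin 3)) (m : ℕ) :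
    J.σ ^ (2 * u.length) * WW m (J.g u) = J.rho u m * J.rho u m := by
  have := Real.mul_self_sqrt (hV.WW_nonneg m (J.g u))
  unfold rho
  rw [two_mul, pow_add]
  linear_combination (-(J.σ ^ u.length * J.σ ^ u.length)) * this

lemma level_low (hV : VStmt) (K : ℕ → ℝ) (n : ℕ) : ∃ C : ℝ, 0 ≤ C ∧
    ∀ (J : Jet) (lam a b : ℝ), J.H K lam → 0 ≤ lam → 0 ≤ a → 0 ≤ b →
      (∀ u m, u.length + m ≤ n → u.length < n → J.rho u m ≤ a) →
      (∀ u m, u.length + m ≤ n → J.rho u m ≤ b) → ∀ j m, j + m ≤ n →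
      ∑ u ∈ words j, J.err j m u ≤ C * (J.μ * J.ω * (a * b)) ∧
      (j < n → ∑ u ∈ words j, J.q j m u ≤ C * (J.μ * J.ω * (a * b))) := by
  obtain ⟨c1, C1, hC1, h1, h1'⟩ := unif_const hV.comm n
  obtain ⟨c2, C2, hC2, h2, h2'⟩ := unif_const hV.mv n
  obtain ⟨c3, C3, hC3, h3, h3'⟩ := unif_const hV.opT_low n
  obtain ⟨c4, C4, hC4, h4, h4'⟩ := unif_const hV.opT_top n
  set Cn := 1 + C1 + C2 + C3 with hCn
  set Kn := ∑ l ∈ range (n + 1), |K l| with hKn
  have hKn0 : 0 ≤ Kn := sum_nonneg fun _ _ => abs_nonneg _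
  have hK : ∀ l, l ≤ n → K l ≤ Kn := fun l hl => (le_abs_self _).trans
    (single_le_sum (f := fun l => |K l|) (fun _ _ => abs_nonneg _) (mem_range.2 (by omega)))
  set Ce := 3 ^ n * (60 * 2 ^ n * Kn * Cn) with hCe
  set Cd := 3 ^ n * |K 0 + 3 * (K 1 * K 0 + K 1) + 42 * K 0 * C4| with hCd
  set Cf := 2 * n * (3 ^ n * (18 * (|K 0 * K 1 + K 1| * Cn))) with hCf
  have hCe0 : 0 ≤ Ce := by positivity
  have hCd0 : 0 ≤ Cd := by positivity
  have hCf0 : 0 ≤ Cf := by positivity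
  refine ⟨Ce + Cd + Cf, by positivity, fun J lam a b h hlam ha0 hb0 ha hb j m hjm => ?_⟩
  have hσ := h.σ_pos
  have hω := h.ω_pos
  have hμ := h.μ_pos
  set X := J.μ * J.ω * (a * b) with hX
  have hX0 : 0 ≤ X := by positivity
  have h3j : ∀ i, i ≤ n → (3 : ℝ) ^ i ≤ 3 ^ n := fun i hi => pow_le_pow_right₀ (by norm_num) hi
  have up : ∀ {v c C w1 w2 : ℝ}, v ≤ c * √w1 * √w2 → c ≤ C → v ≤ C * √w1 * √w2 :=
    fun hv hc => hv.trans (by gcongr)
  have hmv : ∀ i f g, |ip (mulV i f) (RR m g)| ≤ Cn * √(WW m f) * √(WW m g) := fun i f g =>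
    up ((h2 m).2 i f g) ((h2' m (by omega)).trans (by linarith))
  have he : ∑ u ∈ words j, J.err j m u ≤ Ce * X := by
    have := sum_words_le (j := j) (φ := J.err j m) fun u hu =>
      err_le hV h hK (Cn := Cn) (by linarith)
        (fun m' hm i f g => up ((h1 m').2 i f g) ((h1' m' (by omega)).trans (by linarith))) hmv
        (fun α f g => up ((h3 m).2 α f g) ((h3' m (by omega)).trans (by linarith)))
        ha hb ha0 hb0 hjm u hu
    calc _ ≤ _ := this
      _ = 3 ^ j * (60 * 2 ^ n * Kn * Cn * X) := by rw [hX]; ring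
      _ ≤ 3 ^ n * (60 * 2 ^ n * Kn * Cn * X) :=
        mul_le_mul_of_nonneg_right (h3j j (by omega)) (by positivity)
      _ = _ := by rw [hCe]; ring
  refine ⟨he.trans (by gcongr; linarith), fun hj => ?_⟩
  have hd : ∑ u ∈ words j, J.diag j m u ≤ Cd * X := by
    have := sum_words_le (j := j) (φ := J.diag j m)
      (M := |K 0 + 3 * (K 1 * K 0 + K 1) + 42 * K 0 * C4| * X) fun u hu => by
        have a1 := diag_le hV h (m := m) (Ct := C4) (fun α f => ((h4 m).2 α f).trans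
          (mul_le_mul_of_nonneg_right (h4' m (by omega)) (hV.WW_nonneg _ _))) j u
        have a2 : J.σ ^ (2 * j) * WW m (J.g u) ≤ a * b := by
          rw [← hu, rho_sq hV]
          exact mul_le_mul (ha u m (by omega) (by omega)) (hb u m (by omega))
            (by unfold rho; positivity) ha0
        have a3 : 0 ≤ J.σ ^ (2 * j) * WW m (J.g u) := by
          have := hV.WW_nonneg m (J.g u); positivity
        calc _ ≤ _ := a1
          _ ≤ |K 0 + 3 * (K 1 * K 0 + K 1) + 42 * K 0 * C4| * (J.μ * J.ω) * (a * b) := by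
            gcongr; exact le_abs_self _
          _ = _ := by rw [hX]; ring
    calc _ ≤ _ := this
      _ ≤ 3 ^ n * (|K 0 + 3 * (K 1 * K 0 + K 1) + 42 * K 0 * C4| * X) :=
        mul_le_mul_of_nonneg_right (h3j j (by omega)) (by positivity)
      _ = _ := by rw [hCd]; ring
  have hf : ∑ u ∈ words j, J.f1 j m u ≤ Cf * X := by
    rcases j with _ | j
    · simp only [words, sum_singleton, f1_zero]; positivity
    · rw [sum_f1]
      have := sum_words_le (j := j) fun c hc => form_le_gen hV h hlam (j := j) (m := m) (Cn := Cn)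
        (a := a) (b := b) (by linarith) hmv (fun p => J.g (p :: c))
        (fun p => by simpa [rho, hc] using ha (p :: c) m (by simp; omega) (by simp; omega))
        (fun p => by simpa [rho, hc] using hb (p :: c) m (by simp; omega))
      have hj1 : (j + 1 : ℝ) ≤ n := by exact_mod_cast hj.le
      calc _ ≤ 2 * (j + 1 : ℝ) * J.ω *
            (3 ^ j * (18 * ((K 0 * K 1 + K 1) * J.μ * Cn * (a * b)))) :=
            mul_le_mul_of_nonneg_left this (by positivity)
        _ ≤ 2 * n * J.ω * (3 ^ n * (18 * (|K 0 * K 1 + K 1| * J.μ * Cn * (a * b)))) := by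
            have k0 := h.K_nonneg 0
            have k1 := h.K_nonneg 1
            gcongr
            · norm_num
            · omega
            · exact le_abs_self _
        _ = _ := by rw [hCf, hX]; ring
  simp only [q_eq, sum_add_distrib]
  linarith

lemma level_top (hV : VStmt) (K : ℕ → ℝ) : ∃ K0 : ℝ, ∀ n : ℕ, ∃ C : ℝ, 0 ≤ C ∧
    ∀ (J : Jet) (lam a b : ℝ), J.H K lam → 0 ≤ lam → 0 ≤ a → a ≤ b →
      (∀ u, u.length = n → J.σ ^ n * √(wq (J.g u - PP (J.g u))) ≤ a) →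
      (∀ u, u.length = n → J.σ ^ n * √(ip (PP (J.g u)) (PP (J.g u))) ≤ b) →
      ∑ u ∈ words n, (J.diag n 0 u + J.f1 n 0 u)
        ≤ J.μ * J.ω * ((K0 - 2 * n * lam) * J.zz n) + C * (J.μ * J.ω * (a * b)) := by
  obtain ⟨Ct, hCt, htop⟩ := hV.opT_top 0
  obtain ⟨Cs, hCs, hsp⟩ := hV.split 0
  obtain ⟨Cx, hCx, hx⟩ := hV.cross
  set Kd := |K 0 + 3 * (K 1 * K 0 + K 1) + 42 * K 0 * Ct| with hKd
  refine ⟨Kd * Cs, fun n => ?_⟩
  set Cd := Kd * Cs * 3 ^ n with hCd
  set Cf := 2 * n * (3 ^ n * (18 * (|K 0 * K 1 + K 1| * (3 * Cx)))) with hCf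
  refine ⟨Cd + Cf, by positivity, fun J lam a b h hlam ha0 hab hy hz => ?_⟩
  have hσ := h.σ_pos
  have hω := h.ω_pos
  have hμ := h.μ_pos
  have hb0 : 0 ≤ b := ha0.trans hab
  set X := J.μ * J.ω * (a * b) with hX
  have hX0 : 0 ≤ X := by positivity
  have hd : ∑ u ∈ words n, J.diag n 0 u ≤ J.μ * J.ω * (Kd * Cs * J.zz n) + Cd * X := by
    have a0 : ∀ u ∈ words n, J.diag n 0 u ≤ J.μ * J.ω * (Kd * Cs *
        (J.σ ^ (2 * n) * ip (PP (J.g u)) (PP (J.g u)))) + Kd * Cs * X := by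
      intro u hu
      have hu' := mem_words.1 hu
      have a1 := diag_le hV h htop n u
      have a2 : J.σ ^ (2 * n) * WW 0 (J.g u - PP (J.g u)) ≤ a * b := by
        have e : WW 0 (J.g u - PP (J.g u)) = wq (J.g u - PP (J.g u)) := by simp [WW, words]
        have e2 := Real.mul_self_sqrt (hV.wq_nonneg (J.g u - PP (J.g u)))
        have := mul_le_mul (hy u hu') ((hy u hu').trans hab) (by positivity) ha0
        rw [e, two_mul, pow_add, ← e2]
        linarith
      have a3 : 0 ≤ J.σ ^ (2 * n) * WW 0 (J.g u) := by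
        have := hV.WW_nonneg 0 (J.g u); positivity
      have a4 : J.σ ^ (2 * n) * WW 0 (J.g u) ≤
          Cs * (J.σ ^ (2 * n) * ip (PP (J.g u)) (PP (J.g u)) + a * b) := by
        have := mul_le_mul_of_nonneg_left (hsp (J.g u)) (by positivity : 0 ≤ J.σ ^ (2 * n))
        nlinarith [mul_le_mul_of_nonneg_left a2 hCs.le]
      calc _ ≤ _ := a1
        _ ≤ Kd * (J.μ * J.ω) * (Cs * (J.σ ^ (2 * n) * ip (PP (J.g u)) (PP (J.g u)) + a * b)) := by
          gcongr; exact le_abs_self _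
        _ = _ := by rw [hX]; ring
    refine (sum_le_sum a0).trans (le_of_eq ?_)
    rw [sum_add_distrib, ← mul_sum, ← mul_sum, ← mul_sum, sum_const, card_words, nsmul_eq_mul, hCd]
    push_cast
    unfold zz
    ring
  have hf : ∑ u ∈ words n, J.f1 n 0 u ≤ J.μ * J.ω * (-(2 * n * lam) * J.zz n) + Cf * X := by
    rcases n with _ | j
    · simp [words, f1_zero, hCf]
    · rw [sum_f1]
      have a0 : ∀ c ∈ words j, J.σ ^ (2 * j + 1) *
          (J.formU 0 (fun p => J.g (p :: c)) + J.formC 0 fun p => J.g (p :: c)) ≤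
          -(lam * J.μ * (J.σ ^ (2 * (j + 1)) * ∑ p, ip (PP (J.g (p :: c))) (PP (J.g (p :: c)))))
            + 18 * (|K 0 * K 1 + K 1| * J.μ * (3 * Cx) * (a * b)) := fun c hc =>
        (form_le_top hV h hlam hCx.le hab hx (fun p => J.g (p :: c))
          (fun p => hy (p :: c) (by simp [mem_words.1 hc]))
          (fun p => hz (p :: c) (by simp [mem_words.1 hc]))).trans (by
            gcongr; exact le_abs_self _)
      have a1 := (sum_le_sum a0).trans_eq (by
        rw [sum_add_distrib, sum_neg_distrib, ← mul_sum, ← mul_sum, sum_const, card_words,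
          nsmul_eq_mul, sum_comm, ← sum_words_succ j fun u => ip (PP (J.g u)) (PP (J.g u))])
      have a2 := mul_le_mul_of_nonneg_left a1 (by positivity : 0 ≤ 2 * (j + 1 : ℝ) * J.ω)
      have a3 : (3 : ℝ) ^ j ≤ 3 ^ (j + 1) := pow_le_pow_right₀ (by norm_num) (by omega)
      have a4 : 2 * (j + 1 : ℝ) * J.ω *
          (3 ^ j * (18 * (|K 0 * K 1 + K 1| * J.μ * (3 * Cx) * (a * b)))) ≤ Cf * X := by
        calc _ ≤ 2 * (j + 1 : ℝ) * J.ω *
              (3 ^ (j + 1) * (18 * (|K 0 * K 1 + K 1| * J.μ * (3 * Cx) * (a * b)))) := by gcongr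
          _ = _ := by rw [hCf, hX]; push_cast; ring
      unfold zz
      push_cast at a2 ⊢
      linarith
  rw [sum_add_distrib]
  linarith

lemma sum_q_le (hV : VStmt) (K : ℕ → ℝ) : ∃ K0 : ℝ, ∀ n : ℕ, ∃ C : ℝ, 0 ≤ C ∧
    ∀ (θ : ℝ) (J : Jet) (lam a b : ℝ), 0 < θ → θ ≤ 1 → J.H K lam → 0 ≤ lam → 0 ≤ a → a ≤ b →
      (∀ u m, u.length + m ≤ n → u.length < n → J.rho u m ≤ a) →
      (∀ u m, u.length + m ≤ n → J.rho u m ≤ b) →
      (∀ u, u.length = n → J.σ ^ n * √(wq (J.g u - PP (J.g u))) ≤ a) →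
      (∀ u, u.length = n → J.σ ^ n * √(ip (PP (J.g u)) (PP (J.g u))) ≤ b) →
      ∑ j ∈ range (n + 1), ∑ m ∈ range (n + 1 - j), θ ^ (j + m) * ∑ u ∈ words j, J.q j m u
        ≤ J.μ * J.ω * (θ ^ n * (K0 - 2 * n * lam) * J.zz n + C * (a * b)) := by
  obtain ⟨K0, htop⟩ := level_top hV K
  refine ⟨K0, fun n => ?_⟩
  obtain ⟨C1, hC1, h1⟩ := level_low hV K n
  obtain ⟨C2, hC2, h2⟩ := htop n
  refine ⟨n * ((n + 1) * C1) + (C2 + C1), by positivity,
    fun θ J lam a b hθ hθ1 h hlam ha0 hab ha hb hy hz => ?_⟩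
  have hω := h.ω_pos
  have hμ := h.μ_pos
  have hb0 : 0 ≤ b := ha0.trans hab
  replace h1 := h1 J lam a b h hlam ha0 hb0 ha hb
  replace h2 := h2 J lam a b h hlam ha0 hab hy hz
  set X := J.μ * J.ω * (a * b) with hX
  have hX0 : 0 ≤ X := by positivity
  have hp : ∀ i, θ ^ i ≤ 1 := fun i => pow_le_one₀ hθ.le hθ1
  have s1 : ∀ j ∈ range n, ∑ m ∈ range (n + 1 - j), θ ^ (j + m) * ∑ u ∈ words j, J.q j m u
      ≤ (n + 1) * C1 * X := by
    intro j hj
    have hj' := mem_range.1 hj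
    have := sum_le_card_nsmul (range (n + 1 - j))
      (fun m => θ ^ (j + m) * ∑ u ∈ words j, J.q j m u) (C1 * X) fun m hm =>
        (mul_le_mul_of_nonneg_left ((h1 j m (by have := mem_range.1 hm; omega)).2 hj')
          (by positivity)).trans (mul_le_of_le_one_left (by positivity) (hp _))
    rw [card_range, nsmul_eq_mul] at this
    have hc : ((n + 1 - j : ℕ) : ℝ) ≤ n + 1 := by exact_mod_cast Nat.sub_le _ _
    calc _ ≤ _ := this
      _ ≤ (n + 1) * (C1 * X) := by gcongr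
      _ = _ := by ring
  have s2 := sum_le_card_nsmul _ _ _ s1
  rw [card_range, nsmul_eq_mul] at s2
  have s3 : ∑ u ∈ words n, J.q n 0 u ≤
      J.μ * J.ω * ((K0 - 2 * n * lam) * J.zz n) + (C2 + C1) * X := by
    have := (h1 n 0 (by omega)).1
    simp only [q_eq, sum_add_distrib] at h2 ⊢
    linarith
  have s4 := mul_le_mul_of_nonneg_left s3 (by positivity : 0 ≤ θ ^ n)
  have s5 : θ ^ n * ((C2 + C1) * X) ≤ (C2 + C1) * X :=
    mul_le_of_le_one_left (by positivity) (hp _)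
  rw [sum_range_succ, show n + 1 - n = 1 by omega, sum_range_one, add_zero]
  rw [mul_add] at s4
  have e : J.μ * J.ω * (θ ^ n * (K0 - 2 * n * lam) * J.zz n +
      (n * ((n + 1) * C1) + (C2 + C1)) * (a * b)) =
      θ ^ n * (J.μ * J.ω * ((K0 - 2 * n * lam) * J.zz n)) + n * ((n + 1) * C1 * X)
        + (C2 + C1) * X := by rw [hX]; ring
  rw [e]
  linarith

end Jet

end Pool.Agent.MP_187b32_an
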