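import Pool.Agent.MP_187b32_an.En.Defs

/-!
Combinatorics of the Leibniz rule: sums over the splittings of a word.
-/

set_option autoImplicit false

open Pool.Agent.Boltz Finset

noncomputable section

namespace Pool.Agent.MP_187b32_an

/-- Sum over all splittings of `u`. -/
def SP (u : List (Fin 3)) (φ : List (Fin 3) → List (Fin 3) → ℝ) : ℝ :=
  ((splits u).map fun p => φ p.1 p.2).sum

lemma SP_nil (φ : List (Fin 3) → List (Fin 3) → ℝ) : SP [] φ = φ [] [] := by simp [SP, splits]

lemma SP_cons (i : Fin 3) (u : List (Fin 3)) (φ : List (Fin 3) → List (Fin 3) → ℝ) :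
    SP (i :: u) φ = SP u (fun a b => φ (i :: a) b) + SP u fun a b => φ a (i :: b) := by
  simp [SP, splits, List.map_map, Function.comp_def]

/-- The terms with exactly one letter on the left. -/
def O1 : List (Fin 3) → (List (Fin 3) → List (Fin 3) → ℝ) → ℝ
  | [], _ => 0
  | i :: u, φ => φ [i] u + O1 u fun a b => φ a (i :: b)

lemma abs_SP_le {M : ℝ} (u : List (Fin 3)) : ∀ φ : List (Fin 3) → List (Fin 3) → ℝ,
    (∀ a b, a.length + b.length = u.length → |φ a b| ≤ M) → |SP u φ| ≤ 2 ^ u.length * M := by
  induction u with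
  | nil => intro φ h; simpa [SP_nil] using h [] [] rfl
  | cons i u ih =>
    intro φ h
    rw [SP_cons]
    have h1 := ih (fun a b => φ (i :: a) b) fun a b hab => h _ _ (by simp; omega)
    have h2 := ih (fun a b => φ a (i :: b)) fun a b hab => h _ _ (by simp; omega)
    refine (abs_add_le _ _).trans ?_
    rw [List.length_cons, pow_succ]
    linarith

lemma abs_SP_sub_le {M : ℝ} (hM : 0 ≤ M) (u : List (Fin 3)) :
    ∀ φ : List (Fin 3) → List (Fin 3) → ℝ,
    (∀ a b, 1 ≤ a.length → a.length + b.length = u.length → |φ a b| ≤ M) →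
      |SP u φ - φ [] u| ≤ 2 ^ u.length * M := by
  induction u with
  | nil => intro φ _; simpa [SP_nil] using hM
  | cons i u ih =>
    intro φ h
    have h1 := abs_SP_le u (fun a b => φ (i :: a) b) fun a b hab => h _ _ (by simp) (by simp; omega)
    have h2 := ih (fun a b => φ a (i :: b)) fun a b ha hab => h _ _ ha (by simp; omega)
    rw [SP_cons, add_sub_assoc]
    refine (abs_add_le _ _).trans ?_
    rw [List.length_cons, pow_succ]
    linarith

lemma abs_SP_sub2_le {M : ℝ} (hM : 0 ≤ M) (u : List (Fin 3)) :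
    ∀ φ : List (Fin 3) → List (Fin 3) → ℝ,
    (∀ a b, 2 ≤ a.length → a.length + b.length = u.length → |φ a b| ≤ M) →
      |SP u φ - φ [] u - O1 u φ| ≤ 2 ^ u.length * M := by
  induction u with
  | nil => intro φ _; simpa [SP_nil, O1] using hM
  | cons i u ih =>
    intro φ h
    have h1 := abs_SP_sub_le hM u (fun a b => φ (i :: a) b) fun a b ha hab =>
      h _ _ (by simp; omega) (by simp; omega)
    have h2 := ih (fun a b => φ a (i :: b)) fun a b ha hab => h _ _ ha (by simp; omega)
    have e : SP (i :: u) φ - φ [] (i :: u) - O1 (i :: u) φ =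
        (SP u (fun a b => φ (i :: a) b) - φ [i] u) + (SP u (fun a b => φ a (i :: b))
          - φ [] (i :: u) - O1 u fun a b => φ a (i :: b)) := by
      rw [SP_cons, O1]; ring
    rw [e]
    refine (abs_add_le _ _).trans ?_
    rw [List.length_cons, pow_succ]
    linarith

lemma SP_congr (u : List (Fin 3)) : ∀ φ ψ : List (Fin 3) → List (Fin 3) → ℝ,
    (∀ a b, (a ++ b).Perm u → φ a b = ψ a b) → SP u φ = SP u ψ := by
  induction u with
  | nil => intro φ ψ h; simpa [SP_nil] using h [] [] (List.Perm.refl _)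
  | cons i u ih =>
    intro φ ψ h
    rw [SP_cons, SP_cons, ih _ (fun a b => ψ (i :: a) b) fun a b hab => h _ _ (hab.cons i),
      ih _ (fun a b => ψ a (i :: b)) fun a b hab =>
        h _ _ (List.perm_middle.trans (hab.cons i))]

lemma sum_O1 (j : ℕ) : ∀ ψ : List (Fin 3) → List (Fin 3) → ℝ,
    ∑ u ∈ words (j + 1), O1 u ψ = (j + 1 : ℝ) * ∑ b ∈ words j, ∑ p, ψ [p] b := by
  induction j with
  | zero => intro ψ; simp [words, O1]
  | succ j ih =>
    intro ψ
    rw [sum_words_succ]
    simp only [O1, sum_add_distrib, ih]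
    rw [sum_words_succ j, ← mul_sum, sum_comm (s := univ) (t := words (j + 1)), sum_words_succ j]
    push_cast
    ring

lemma card_words (j : ℕ) : (words j).card = 3 ^ j := by
  induction j with
  | zero => simp [words]
  | succ j ih => rw [words, card_map, card_product, ih]; simp [pow_succ, mul_comm]

lemma sum_words_le {j : ℕ} {φ : List (Fin 3) → ℝ} {M : ℝ} (h : ∀ u, u.length = j → φ u ≤ M) :
    ∑ u ∈ words j, φ u ≤ 3 ^ j * M := by
  have := sum_le_card_nsmul (words j) φ M fun u hu => h u (mem_words.1 hu)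
  simpa [card_words] using this

lemma map_list_sum_ip (l : List (List (Fin 3) × List (Fin 3)))
    (φ : List (Fin 3) × List (Fin 3) → SV) (h : SV) :
    ip (l.map φ).sum h = (l.map fun p => ip (φ p) h).sum := by
  induction l with
  | nil => simp
  | cons p l ih => simp [ih]

end Pool.Agent.MP_187b32_an
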